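import Pool.Agent.Helper89.A8.GTools
import Pool.Agent.Helper89.A8.Stmts

/-!
# Block A8-G22 (MP_93c1ff): `τ²` in the setting (E)
-/

set_option autoImplicit false

namespace Pool.Agent.A8

open Matrix
open scoped commutatorElement

/-! ### finite facts -/

theorem G22_V1 : ∀ x : MV, act gs x = x → act gr x = x → x = 0 := by
  intro x h1 h2
  rw [act_MV] at h1 h2
  revert x
  unfold MV
  decide +kernel

theorem G22_V2 : ∀ x : MV, act gs x = x → act gt x = x → x = 0 ∨ x = vE0 := by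
  intro x h1 h2
  rw [act_MV] at h1 h2
  revert x
  unfold MV
  decide +kernel

theorem G22_V3 : act gh vE0 = vE0 := by
  rw [act_MV]
  decide +kernel

theorem G22_V4 : act gs vE0 = vE0 := by
  rw [act_MV]
  decide +kernel

theorem G22_L1 : ∀ l : ML, act gs l = l → act gt l = l := by
  intro l h1
  rw [act_ML] at h1 ⊢
  revert l
  unfold ML
  decide +kernel

theorem G22_TT {t : Gam} (ht : t ∈ TT) :
    ∃ a b c : ZMod 2, t.1 = !![1, a, b, c; 0, 1, 0, 0; 0, 0, 1, 0; 0, 0, 0, 1] := by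
  refine ⟨t.1 0 1, t.1 0 2, t.1 0 3, ?_⟩
  obtain ⟨h0, h1⟩ := ht
  have h' : ∀ a b c : ZMod 2, ∀ i : Fin 3, ∀ j, (1 : M4) i.succ j =
      !![1, a, b, c; 0, 1, 0, 0; 0, 0, 1, 0; 0, 0, 0, 1] i.succ j := by decide +kernel
  ext i j
  refine Fin.cases ?_ (fun i => ?_) i
  · fin_cases j <;> simp [h0]
  · rw [h1 i j]
    exact h' _ _ _ i j

/-- the image of a bivector modulo `e₀ ∧ V` -/
def G22b (l : ML) : Fin 3 → ZMod 2 := ![l 3, l 4, l 5]

theorem G22b_add (l m : ML) : G22b (l + m) = G22b l + G22b m := by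
  funext i
  fin_cases i <;> rfl

theorem G22_TTb {t : Gam} (ht : t ∈ TT) (l : ML) : G22b (act t l) = G22b l := by
  obtain ⟨a, b, c, h⟩ := G22_TT ht
  rw [act_ML, h]
  clear h
  revert l a b c
  unfold ML
  decide +kernel

/-- the action of `gh` modulo `e₀ ∧ V` -/
def G22N (z : Fin 3 → ZMod 2) : Fin 3 → ZMod 2 := G22b (actL gh.1 (![0, 0, 0, z 0, z 1, z 2]))

theorem G22_N (l : ML) : G22b (act gh l) = G22N (G22b l) := by
  rw [act_ML]
  revert l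
  unfold ML
  decide +kernel

theorem G22_N3 : ∀ z : Fin 3 → ZMod 2, G22N (G22N (G22N z)) = z + G22N z → z = 0 := by
  decide +kernel

theorem G22_L2 : ∀ l : ML, G22b l = 0 → act gt l = l := by
  intro l h
  rw [act_ML]
  revert l
  unfold ML
  decide +kernel

theorem G22_L3 : ∀ l : ML, act gs l = l → act (gh * gt * gh⁻¹) l = l → l = 0 ∨ l = lE01 := by
  intro l h1 h2
  have h3 : (gh * gt * gh⁻¹ : Gam).1 = gh.1 * gt.1 * (gh⁻¹).1 := rfl
  rw [act_ML] at h1 h2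
  rw [h3] at h2
  revert l
  unfold ML
  decide +kernel

theorem G22_t3 : gh ^ 3 * gt * (gh ^ 3)⁻¹ = gt * (gh ^ 2 * gt * (gh ^ 2)⁻¹) := by
  apply Units.ext
  decide +kernel

theorem G22_gt2 : gt * gt = 1 := by
  apply Units.ext
  decide +kernel

theorem G22_TT_comm {t t' : Gam} (ht : t ∈ TT) (ht' : t' ∈ TT) : t * t' = t' * t := by
  obtain ⟨a, b, c, h⟩ := G22_TT ht
  obtain ⟨a', b', c', h'⟩ := G22_TT ht'
  apply Units.ext
  rw [Units.val_mul, Units.val_mul, h, h']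
  clear h h' ht ht'
  revert a b c a' b' c'
  decide +kernel

theorem G22_gt_mem : gt ∈ TT := by
  constructor
  · decide
  · decide

theorem G22_gh_ne : gh ≠ 1 := by
  intro h
  have := congrArg (fun g : Gam => g.1 1 1) h
  revert this
  decide

/-! ### group facts -/

section
variable {G : Type} [Group G] [Finite G] {π : G →* Gam}

/-- (7): an element of the kernel commuting with an element of order 7 has order at most 2 -/
theorem G22_sq7 (hC : Cfg π) {ρ x : G} (hρ : ρ ^ 7 = 1) (hρ1 : ρ ≠ 1) (hx : x ∈ π.ker)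
    (h : x * ρ = ρ * x) : x * x = 1 := by
  haveI : Fact (Nat.Prime 7) := ⟨by norm_num⟩
  have ho : orderOf ρ = 7 := orderOf_eq_prime hρ hρ1
  obtain ⟨k, hk⟩ := hC.ker2 ⟨x, hx⟩
  have hk' : x ^ 2 ^ k = 1 := congrArg Subtype.val hk
  have hd : orderOf x ∣ 2 ^ k := orderOf_dvd_of_pow_eq_one hk'
  obtain ⟨m, -, hm⟩ := (Nat.dvd_prime_pow Nat.prime_two).1 hd
  rcases Nat.lt_or_ge m 2 with h2 | h2
  · have h3 : orderOf x ∣ 2 := by
      rw [hm]
      exact (pow_dvd_pow 2 (Nat.le_of_lt_succ h2)).trans (by norm_num)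
    rw [← sq]
    exact orderOf_dvd_iff_pow_eq_one.1 h3
  · exfalso
    have h4 : orderOf (x ^ 2 ^ (m - 2)) = 4 := by
      rw [orderOf_pow_of_dvd (by positivity), hm, Nat.pow_div (by omega) (by norm_num)]
      · rw [show m - (m - 2) = 2 by omega]
      · rw [hm]
        exact pow_dvd_pow 2 (by omega)
    have h5 : Commute (x ^ 2 ^ (m - 2)) ρ := (show Commute x ρ from h).pow_left _
    have h6 := h5.orderOf_mul_eq_mul_orderOf_of_coprime (by rw [h4, ho]; decide)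
    rw [h4, ho] at h6
    exact hC.n28 _ h6

/-- fixed points of an element of odd order -/
theorem G22_cop (h4 : S_COP) {s : G} {n : ℕ} (hn : Odd n) (hs : s ^ n = 1) {N : Subgroup G}
    (hN : IsPGroup 2 N) (hsN : ∀ m ∈ N, s * m * s⁻¹ ∈ N) {x : G}
    (hx : x⁻¹ * (s * x * s⁻¹) ∈ N) : ∃ m ∈ N, (x * m) * s = s * (x * m) := by
  have hi : ∀ i : ℕ, (∀ m ∈ N, s ^ i * m * (s ^ i)⁻¹ ∈ N) ∧ x⁻¹ * (s ^ i * x * (s ^ i)⁻¹) ∈ N := by
    intro i
    induction i with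
    | zero => simp [N.one_mem]
    | succ i ih =>
      constructor
      · intro m hm
        have := hsN _ (ih.1 m hm)
        rw [pow_succ']
        have e : s * s ^ i * m * (s * s ^ i)⁻¹ = s * (s ^ i * m * (s ^ i)⁻¹) * s⁻¹ := by group
        rw [e]
        exact this
      · have := N.mul_mem hx (hsN _ ih.2)
        rw [pow_succ']
        have e : x⁻¹ * (s * s ^ i * x * (s * s ^ i)⁻¹) =
            x⁻¹ * (s * x * s⁻¹) * (s * (x⁻¹ * (s ^ i * x * (s ^ i)⁻¹)) * s⁻¹) := by group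
        rw [e]
        exact this
  obtain ⟨m, hm, hm'⟩ := h4 G (Subgroup.zpowers s) N inferInstance
    (by
      rw [Nat.card_zpowers]
      exact Odd.of_dvd_nat hn (orderOf_dvd_of_pow_eq_one hs)) hN
    (by
      intro h hh m hm
      obtain ⟨i, rfl⟩ := (mem_powers_iff_mem_zpowers.2 hh)
      exact (hi i).1 m hm) x
    (by
      intro h hh
      obtain ⟨i, rfl⟩ := (mem_powers_iff_mem_zpowers.2 hh)
      exact (hi i).2)
  refine ⟨m, hm, ?_⟩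
  have := hm' s (Subgroup.mem_zpowers s)
  exact (mul_inv_eq_iff_eq_mul.1 this).symm

theorem G22_fix {X : Subgroup G} {M : Type*} [AddCommGroup M] [Module RG M] {φ : G → M}
    (h : HomOn π X φ) {g x : G} (hx : x ∈ X) (hc : x * g = g * x) :
    act (π g) (φ x) = φ x := by
  rw [← h.conj g x hx, ← hc, mul_inv_cancel_right]

theorem G22_act_inv {M : Type*} [AddCommGroup M] [Module RG M] {g : Gam} {m : M}
    (h : act g m = m) : act g⁻¹ m = m := by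
  conv_lhs => rw [← h]
  exact act_inv_act g m

/-- if `x` commutes with `ρ²` and `ρ⁷ = 1` then it commutes with `ρ` -/
theorem G22_comm_sq {ρ x : G} (hρ : ρ ^ 7 = 1) (h : Commute x (ρ ^ 2)) : Commute x ρ := by
  have h1 : (ρ ^ 2) ^ 4 = ρ := by
    rw [← pow_mul, show 2 * 4 = 7 + 1 by norm_num, pow_succ, hρ, one_mul]
  have := h.pow_right 4
  rwa [h1] at this

/-- conjugation by `s` preserves the centraliser of `ρ` -/
theorem G22_comm_conj {s ρ x : G} (hρ : ρ ^ 7 = 1) (hs : s * ρ * s⁻¹ = ρ ^ 2)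
    (h : x * ρ = ρ * x) : (s * x * s⁻¹) * ρ = ρ * (s * x * s⁻¹) := by
  refine G22_comm_sq hρ ?_
  rw [← hs]
  change s * x * s⁻¹ * (s * ρ * s⁻¹) = s * ρ * s⁻¹ * (s * x * s⁻¹)
  calc s * x * s⁻¹ * (s * ρ * s⁻¹) = s * (x * ρ) * s⁻¹ := by group
    _ = s * (ρ * x) * s⁻¹ := by rw [h]
    _ = _ := by group

end

/-- **Block A8-G22.** -/
theorem bBETA (h1 : S_VI) (h2 : S_UL) (h3 : S_FROB) (h4 : S_COP) : S_BETA := by
  intro G _ _ π hC Y0 Y2 hE s r τ hF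
  obtain ⟨ρ, hρ⟩ := h3 G π hC s hF.s3 hF.πs
  have hY0K : Y0 ≤ π.ker := hE.le0.trans (ZK_le π)
  obtain ⟨U, hU⟩ := h2 G π hC Y0 hE.n0 hY0K hE.h0 s ρ hF.s3 hF.πs hρ
  have hcen : ∀ y ∈ Y0, ∀ k ∈ π.ker, k * y = y * k :=
    fun y hy k hk => (mem_ZK.1 (hE.le0 hy)).1 k hk
  have hn0 : Y0.Normal := hE.n0
  have hρ1 : ρ ≠ 1 := by
    intro h
    apply G22_gh_ne
    rw [← hρ.πρ, h, map_one]
  have hττ : τ * τ ∈ π.ker := by rw [MonoidHom.mem_ker, map_mul, hF.πτ, G22_gt2]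
  have hτs : (τ * τ) * s = s * (τ * τ) := by
    rw [mul_assoc, hF.τs, ← mul_assoc, hF.τs, mul_assoc]
  have hτr : (τ * τ) * r = r * (τ * τ) := by
    have e1 : τ * r = r⁻¹ * τ := by rw [← hF.τr]; group
    have e2 : τ * r⁻¹ = r * τ := by
      calc τ * r⁻¹ = (τ * r * τ⁻¹)⁻¹ * τ := by group
        _ = r * τ := by rw [hF.τr, inv_inv]
    rw [mul_assoc, e1, ← mul_assoc, e2, mul_assoc]
  have hφτ : ∀ φ : G → MV, HomOn π π.ker φ → φ (τ * τ) = 0 := by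
    intro φ hφ
    have e1 := G22_fix hφ hττ hτs
    have e2 := G22_fix hφ hττ hτr
    rw [hF.πs] at e1
    rw [hF.πr] at e2
    exact G22_V1 _ e1 e2
  have hτY : τ * τ ∈ Y0 := hE.h0 _ hττ (fun φ hφ _ => hφτ φ hφ)
  refine ⟨hτY, ?_⟩
  intro ψ hψ
  -- the element `u`
  obtain ⟨u0, hu0, hu0'⟩ := hU.surj gt G22_gt_mem
  obtain ⟨m, hm, hum⟩ := G22_cop h4 (n := 3) (by decide) hF.s3 (N := U ⊓ π.ker)
    (hC.ker2.to_le inf_le_right)
    (by
      rintro m ⟨hm, hm'⟩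
      exact ⟨hU.ns m hm, (ker_normal π).conj_mem m hm' s⟩) (x := u0)
    (by
      refine ⟨U.mul_mem (U.inv_mem hu0) (hU.ns _ hu0), ?_⟩
      change _ ∈ π.ker
      rw [MonoidHom.mem_ker, map_mul, map_mul, map_mul, map_inv, map_inv, hu0', hF.πs, ← gt_gs]
      group)
  set u := u0 * m with hu_def
  have huU : u ∈ U := U.mul_mem hu0 hm.1
  have hπu : π u = gt := by
    rw [hu_def, map_mul, hu0', (MonoidHom.mem_ker.1 hm.2), mul_one]
  have huu : u * u ∈ Y0 := hU.ker _ (U.mul_mem huU huU) (by rw [map_mul, hπu, G22_gt2])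
  -- the element `x'`
  set x' := u⁻¹ * τ with hx'_def
  have hx'K : x' ∈ π.ker := by
    rw [MonoidHom.mem_ker, hx'_def, map_mul, map_inv, hπu, hF.πτ, inv_mul_cancel]
  have hx's : x' * s = s * x' := by
    have c1 : Commute u s := hum
    have c2 : Commute τ s := hF.τs
    exact (c1.inv_left.mul_left c2)
  have hτu : τ = u * x' := by rw [hx'_def]; group
  have hτ2 : τ * τ = (u * u) * ((u⁻¹ * x' * u⁻¹⁻¹) * x') := by rw [hτu]; group
  have hconjK : ∀ g : G, ∀ k ∈ π.ker, g * k * g⁻¹ ∈ π.ker :=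
    fun g k hk => (ker_normal π).conj_mem k hk g
  have hφx : ∀ φ : G → MV, HomOn π π.ker φ → (∀ y ∈ Y0, φ y = 0) → φ x' = 0 ∨ φ x' = vE0 := by
    intro φ hφ hφ0
    have e1 := G22_fix hφ hx'K hx's
    rw [hF.πs] at e1
    have e2 := hφτ φ hφ
    rw [hτ2, hφ.mul _ (hY0K huu) _ (π.ker.mul_mem (hconjK _ _ hx'K) hx'K),
      hφ.mul _ (hconjK _ _ hx'K) _ hx'K, hφ.conj _ _ hx'K, hφ0 _ huu, zero_add, map_inv, hπu] at e2
    have e3 : act gt⁻¹ (φ x') = φ x' := by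
      have := eq_neg_of_add_eq_zero_left e2
      rwa [neg_eq] at this
    have e4 := G22_act_inv e3
    rw [inv_inv] at e4
    exact G22_V2 _ e1 e4
  obtain ⟨l1, hl1, hx1⟩ := G22_cop h4 (n := 7) (by decide) hρ.r7 (N := Y0)
    (hC.ker2.to_le hY0K) (fun m hm => hn0.conj_mem m hm ρ) (x := x')
    (by
      refine hE.h0 _ (π.ker.mul_mem (π.ker.inv_mem hx'K) (hconjK _ _ hx'K)) ?_
      intro φ hφ hφ0
      rw [hφ.mul _ (π.ker.inv_mem hx'K) _ (hconjK _ _ hx'K), hφ.map_inv hx'K, hφ.conj _ _ hx'K,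
        hρ.πρ]
      rcases hφx φ hφ hφ0 with e | e
      · rw [e, act_zero, add_zero]
      · rw [e, G22_V3, add_self])
  obtain ⟨l2, hl2, hx2⟩ := G22_cop h4 (n := 3) (by decide) hF.s3
    (N := Y0 ⊓ Subgroup.centralizer {ρ})
    (hC.ker2.to_le (inf_le_left.trans hY0K))
    (by
      rintro m ⟨hm, hm'⟩
      refine ⟨hn0.conj_mem m hm s, ?_⟩
      exact Subgroup.mem_centralizer_singleton_iff.2
        (G22_comm_conj hρ.r7 hρ.sρ (Subgroup.mem_centralizer_singleton_iff.1 hm'))) (x := x' * l1)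
    (by
      constructor
      · have e : (x' * l1)⁻¹ * (s * (x' * l1) * s⁻¹) =
            l1⁻¹ * (x'⁻¹ * (s * x') * s⁻¹) * (s * l1 * s⁻¹) := by group
        rw [e, ← hx's]
        have e' : l1⁻¹ * (x'⁻¹ * (x' * s) * s⁻¹) * (s * l1 * s⁻¹) = l1⁻¹ * (s * l1 * s⁻¹) := by
          group
        rw [e']
        exact Y0.mul_mem (Y0.inv_mem hl1) (hn0.conj_mem l1 hl1 s)
      · refine Subgroup.mem_centralizer_singleton_iff.2 ?_
        have c1 : Commute (x' * l1) ρ := hx1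
        have c2 : Commute (s * (x' * l1) * s⁻¹) ρ := G22_comm_conj hρ.r7 hρ.sρ hx1
        exact c1.inv_left.mul_left c2)
  have hl2Y : l2 ∈ Y0 := hl2.1
  have hl2ρ : l2 * ρ = ρ * l2 := Subgroup.mem_centralizer_singleton_iff.1 hl2.2
  set x2 := x' * l1 * l2 with hx2_def
  have hx2K : x2 ∈ π.ker := π.ker.mul_mem (π.ker.mul_mem hx'K (hY0K hl1)) (hY0K hl2Y)
  have hx2ρ : x2 * ρ = ρ * x2 := (show Commute (x' * l1) ρ from hx1).mul_left hl2ρ
  have hx22 : x2 * x2 = 1 := G22_sq7 hC hρ.r7 hρ1 hx2K hx2ρ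
  obtain ⟨hxu, -⟩ := h1 G π hC Y0 Y2 hE s r τ ρ hF hρ U hU x2 hx2K hx2ρ hx2
  -- the element `l0`
  set l0 := (l1 * l2)⁻¹ with hl0_def
  have hl0Y : l0 ∈ Y0 := Y0.inv_mem (Y0.mul_mem hl1 hl2Y)
  have hx'2 : x' = x2 * l0 := by rw [hx2_def, hl0_def]; group
  have hl0s : l0 * s = s * l0 := by
    have e : l0 = x2⁻¹ * x' := by rw [hx'2]; group
    rw [e]
    exact (show Commute x2 s from hx2).inv_left.mul_left hx's
  have hl0' : u⁻¹ * l0 * u⁻¹⁻¹ ∈ Y0 := hn0.conj_mem l0 hl0Y u⁻¹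
  have hτ3 : τ * τ = (u * u) * ((u⁻¹ * l0 * u⁻¹⁻¹) * l0) := by
    have c1 := hxu u huU
    have c2 := hcen _ hl0' x2 hx2K
    calc τ * τ = u * x2 * l0 * (u * x2 * l0) := by rw [hτu, hx'2]; group
      _ = u * x2 * u * (u⁻¹ * l0 * u⁻¹⁻¹) * x2 * l0 := by group
      _ = u * (x2 * u) * ((u⁻¹ * l0 * u⁻¹⁻¹) * x2) * l0 := by group
      _ = u * (u * x2) * (x2 * (u⁻¹ * l0 * u⁻¹⁻¹)) * l0 := by rw [c1, c2]
      _ = u * u * (x2 * x2) * (u⁻¹ * l0 * u⁻¹⁻¹) * l0 := by group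
      _ = _ := by rw [hx22]; group
  have hψ1 : ψ (τ * τ) = ψ (u * u) := by
    have e1 := G22_fix hψ hl0Y hl0s
    rw [hF.πs] at e1
    rw [hτ3, hψ.mul _ huu _ (Y0.mul_mem hl0' hl0Y), hψ.mul _ hl0' _ hl0Y, hψ.conj _ _ hl0Y,
      map_inv, hπu, G22_act_inv (G22_L1 _ e1), add_self, add_zero]
  have hψs : act gs (ψ (τ * τ)) = ψ (τ * τ) := by
    have e1 := G22_fix hψ hτY hτs
    rwa [hF.πs] at e1
  -- the commutators of elements of `U`
  have hUY : ∀ a ∈ U, ∀ b ∈ U, ⁅a, b⁆ ∈ Y0 := by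
    intro a ha b hb
    refine hU.ker _ (U.mul_mem (U.mul_mem (U.mul_mem ha hb) (U.inv_mem ha)) (U.inv_mem hb)) ?_
    rw [commutatorElement_def, map_mul, map_mul, map_mul, map_inv, map_inv,
      G22_TT_comm (hU.map a ha) (hU.map b hb)]
    group
  have hkY : ∀ k ∈ U, π k = 1 → k ∈ Y0 := hU.ker
  have hBm : ∀ a ∈ U, ∀ b ∈ U, ∀ c ∈ U,
      G22b (ψ ⁅a, b * c⁆) = G22b (ψ ⁅a, b⁆) + G22b (ψ ⁅a, c⁆) := by
    intro a ha b hb c hc
    have e : ⁅a, b * c⁆ = ⁅a, b⁆ * (b * ⁅a, c⁆ * b⁻¹) := by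
      simp only [commutatorElement_def]
      group
    rw [e, hψ.mul _ (hUY a ha b hb) _ (hn0.conj_mem _ (hUY a ha c hc) b),
      hψ.conj _ _ (hUY a ha c hc), G22b_add, G22_TTb (hU.map b hb)]
  have hz : ∀ w : Fin 3 → ZMod 2, w + w = 0 := by decide
  have hBk : ∀ a ∈ U, ∀ k ∈ U, π k = 1 → G22b (ψ ⁅a, k⁆) = 0 := by
    intro a ha k hk hk'
    rw [hψ.comm hn0 a (hkY k hk hk'), G22b_add, G22_TTb (hU.map a ha), hz]
  have hBs : ∀ a : G, G22b (ψ ⁅a, a⁆) = 0 := by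
    intro a
    rw [commutatorElement_self, hψ.map_one]
    decide
  have hBi : ∀ a ∈ U, ∀ b ∈ U, ψ ⁅b, a⁆ = ψ ⁅a, b⁆ := by
    intro a ha b hb
    rw [← commutatorElement_inv, hψ.map_inv (hUY a ha b hb)]
  have hBc : ∀ a ∈ U, ∀ b ∈ U,
      G22b (ψ ⁅ρ * a * ρ⁻¹, ρ * b * ρ⁻¹⁆) = G22N (G22b (ψ ⁅a, b⁆)) := by
    intro a ha b hb
    have e : ⁅ρ * a * ρ⁻¹, ρ * b * ρ⁻¹⁆ = ρ * ⁅a, b⁆ * ρ⁻¹ := by
      simp only [commutatorElement_def]
      group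
    rw [e, hψ.conj _ _ (hUY a ha b hb), hρ.πρ, G22_N]
  -- the conjugates of `u`
  set u1 := ρ * u * ρ⁻¹ with hu1_def
  set u2 := ρ * u1 * ρ⁻¹ with hu2_def
  set u3 := ρ * u2 * ρ⁻¹ with hu3_def
  have hu1 : u1 ∈ U := hU.nρ _ huU
  have hu2 : u2 ∈ U := hU.nρ _ hu1
  have hu3 : u3 ∈ U := hU.nρ _ hu2
  set k := (u * u2)⁻¹ * u3 with hk_def
  have hkU : k ∈ U := U.mul_mem (U.inv_mem (U.mul_mem huU hu2)) hu3
  have hπu2 : π u2 = gh ^ 2 * gt * (gh ^ 2)⁻¹ := by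
    rw [hu2_def, hu1_def]
    simp only [map_mul, map_inv, hρ.πρ, hπu, pow_two, _root_.mul_inv_rev]
    simp only [mul_assoc]
  have hπu3 : π u3 = gh ^ 3 * gt * (gh ^ 3)⁻¹ := by
    rw [hu3_def, map_mul, map_mul, map_inv, hπu2, hρ.πρ]
    simp only [pow_succ', pow_zero, mul_one, _root_.mul_inv_rev]
    simp only [mul_assoc]
  have hπk : π k = 1 := by
    rw [hk_def, map_mul, map_inv, map_mul, hπu, hπu2, hπu3, G22_t3, inv_mul_cancel]
  have hu3k : u3 = u * u2 * k := by rw [hk_def]; group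
  have f1 : G22b (ψ ⁅u1, u2⁆) = G22N (G22b (ψ ⁅u, u1⁆)) := hBc u huU u1 hu1
  have f2 : G22b (ψ ⁅u2, u3⁆) = G22N (G22b (ψ ⁅u1, u2⁆)) := hBc u1 hu1 u2 hu2
  have f3 : G22b (ψ ⁅u1, u3⁆) = G22N (G22b (ψ ⁅u, u2⁆)) := hBc u huU u2 hu2
  have f4 : G22b (ψ ⁅u2, u3⁆) = G22b (ψ ⁅u, u2⁆) := by
    rw [hu3k, hBm u2 hu2 _ (U.mul_mem huU hu2) k hkU, hBm u2 hu2 u huU u2 hu2, hBs,
      hBk u2 hu2 k hkU hπk, add_zero, add_zero, hBi u huU u2 hu2]
  have f5 : G22b (ψ ⁅u1, u3⁆) = G22b (ψ ⁅u, u1⁆) + G22b (ψ ⁅u1, u2⁆) := by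
    rw [hu3k, hBm u1 hu1 _ (U.mul_mem huU hu2) k hkU, hBm u1 hu1 u huU u2 hu2,
      hBk u1 hu1 k hkU hπk, add_zero, hBi u huU u1 hu1]
  have hz1 : G22b (ψ ⁅u, u1⁆) = 0 := by
    apply G22_N3
    rw [← f1, ← f2, f4, ← f3, f5]
  have hw : G22b (ψ ⁅u1, u⁆) = 0 := by rw [hBi u huU u1 hu1, hz1]
  have hfin : act (gh * gt * gh⁻¹) (ψ (u * u)) = ψ (u * u) := by
    have e1 := hψ.comm hn0 u1 huu
    have e : ⁅u1, u * u⁆ = ⁅u1, u⁆ * (u * ⁅u1, u⁆ * u⁻¹) := by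
      simp only [commutatorElement_def]
      group
    rw [e, hψ.mul _ (hUY _ hu1 _ huU) _ (hn0.conj_mem _ (hUY _ hu1 _ huU) u),
      hψ.conj _ _ (hUY _ hu1 _ huU), hπu, G22_L2 _ hw, add_self] at e1
    have e2 : π u1 = gh * gt * gh⁻¹ := by rw [hu1_def, map_mul, map_mul, map_inv, hπu, hρ.πρ]
    rw [e2] at e1
    have := eq_neg_of_add_eq_zero_left e1.symm
    rwa [neg_eq] at this
  rw [hψ1] at hψs ⊢
  exact G22_L3 _ hψs hfin

end Pool.Agent.A8
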